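import Mathlib

/-!
# Short words which contain many permutations as subsequences

The word `(1 2 … n)^t` contains at least `(t / 4) ^ n` permutations of `[n]` if `t ≤ n`.
-/

set_option autoImplicit false

namespace Pool.Agent.Results.MP_6c7e5c_co.ManyPermutations

open Finset

open scoped Nat

open Classical in
/-- The permutations of `[n]` (here `Fin n`), written as words, which are subsequences of `w`. -/
noncomputable def contained (n : ℕ) (w : List (Fin n)) : Finset (Equiv.Perm (Fin n)) :=
  univ.filter fun π => (List.ofFn π).Sublist w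

/-- `h n m`: the minimum length of a word over `[n]` which contains at least `m` permutations. -/
noncomputable def h (n m : ℕ) : ℕ :=
  sInf {L | ∃ w : List (Fin n), w.length = L ∧ m ≤ (contained n w).card}

/-- `ell m n`: the least `l` with `m ≤ l.choose n`. -/
noncomputable def ell (m n : ℕ) : ℕ := sInf {l : ℕ | m ≤ l.choose n}

/-- the word `(1 2 … n)^t` -/
def word (n t : ℕ) : List (Fin n) := (List.finRange t).flatMap fun _ => List.finRange n

lemma length_word (n t : ℕ) : (word n t).length = t * n := by
  unfold word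
  rw [List.length_flatMap]
  simp

/-- the word of the permutation attached to `f` -/
def lst {n t : ℕ} (f : Fin n → Fin t) : List (Fin n) :=
  (List.finRange t).flatMap fun v => (List.finRange n).filter fun i => f i = v

lemma lst_sublist {n t : ℕ} (f : Fin n → Fin t) : (lst f).Sublist (word n t) := by
  unfold lst word
  generalize List.finRange t = l
  induction l with
  | nil => simp
  | cons a l ih =>
    rw [List.flatMap_cons, List.flatMap_cons]
    exact List.Sublist.append List.filter_sublist ih

lemma mem_lst {n t : ℕ} (f : Fin n → Fin t) (i : Fin n) : i ∈ lst f := by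
  unfold lst
  rw [List.mem_flatMap]
  exact ⟨f i, List.mem_finRange _, by simp⟩

lemma nodup_lst {n t : ℕ} (f : Fin n → Fin t) : (lst f).Nodup := by
  unfold lst
  rw [List.nodup_flatMap]
  refine ⟨fun v _ => (List.nodup_finRange n).filter _, ?_⟩
  refine (List.nodup_finRange t).imp ?_
  intro a b hab
  rw [Function.onFun, List.disjoint_left]
  intro i hi hi'
  rw [List.mem_filter] at hi hi'
  apply hab
  have h1 := hi.2
  have h2 := hi'.2
  simp only [decide_eq_true_eq] at h1 h2
  rw [← h1, h2]

lemma length_lst {n t : ℕ} (f : Fin n → Fin t) : (lst f).length = n := by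
  have h1 : (lst f).toFinset = univ := by
    ext i
    simp [mem_lst f i]
  have h2 := List.toFinset_card_of_nodup (nodup_lst f)
  rw [h1, card_univ, Fintype.card_fin] at h2
  exact h2.symm

lemma sorted_lst {n t : ℕ} (f : Fin n → Fin t) : ((lst f).map f).Pairwise (· ≤ ·) := by
  unfold lst
  rw [List.map_flatMap, List.pairwise_flatMap]
  constructor
  · intro v _
    rw [List.pairwise_map]
    apply List.Pairwise.imp_of_mem (R := fun _ _ => True)
    · intro a b ha hb _
      rw [List.mem_filter] at ha hb
      have h1 := ha.2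
      have h2 := hb.2
      simp only [decide_eq_true_eq] at h1 h2
      rw [h1, h2]
    · exact List.pairwise_of_forall (fun _ _ => trivial)
  · have h1 : (List.finRange t).Pairwise (· < ·) := List.pairwise_lt_finRange t
    refine h1.imp ?_
    intro a b hab x hx y hy
    rw [List.mem_map] at hx hy
    obtain ⟨i, hi, rfl⟩ := hx
    obtain ⟨j, hj, rfl⟩ := hy
    rw [List.mem_filter] at hi hj
    have h1 := hi.2
    have h2 := hj.2
    simp only [decide_eq_true_eq] at h1 h2
    rw [h1, h2]
    exact hab.le

/-- the permutation attached to `f` -/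
noncomputable def perm {n t : ℕ} (f : Fin n → Fin t) : Equiv.Perm (Fin n) :=
  Equiv.ofBijective (fun i => (lst f).get (i.cast (length_lst f).symm)) (by
    have hinj : Function.Injective (fun i : Fin n => (lst f).get (i.cast (length_lst f).symm)) := by
      intro i j hij
      have h1 := (List.nodup_iff_injective_get.1 (nodup_lst f)) hij
      exact Fin.cast_injective _ h1
    exact Finite.injective_iff_bijective.1 hinj)

lemma ofFn_perm {n t : ℕ} (f : Fin n → Fin t) : List.ofFn (perm f) = lst f := by
  apply List.ext_get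
  · rw [List.length_ofFn, length_lst]
  · intro i h1 h2
    simp [perm]

lemma card_lower (n t : ℕ) : t ^ n ≤ (contained n (word n t)).card * t.multichoose n := by
  classical
  have h1 : Fintype.card (Fin n → Fin t) = t ^ n := by simp
  have h2 : Fintype.card (Sym (Fin t) n) = t.multichoose n := by
    rw [Sym.card_sym_eq_multichoose, Fintype.card_fin]
  rw [← h1, ← h2, ← card_univ (α := Sym (Fin t) n), ← card_product, ← card_univ]
  refine card_le_card_of_injOn
    (fun f => (perm f, (⟨univ.val.map f, by simp⟩ : Sym (Fin t) n))) ?_ ?_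
  · intro f _
    rw [mem_coe, mem_product]
    refine ⟨?_, mem_univ _⟩
    unfold contained
    rw [mem_filter]
    refine ⟨mem_univ _, ?_⟩
    rw [ofFn_perm]
    exact lst_sublist f
  · intro f _ g _ hfg
    have h3 : perm f = perm g := congrArg Prod.fst hfg
    have h4 : (⟨univ.val.map f, by simp⟩ : Sym (Fin t) n) = ⟨univ.val.map g, by simp⟩ :=
      congrArg Prod.snd hfg
    have h5 : lst f = lst g := by rw [← ofFn_perm f, ← ofFn_perm g, h3]
    have h6 : univ.val.map f = univ.val.map g := congrArg Subtype.val h4
    have hval : ∀ f' : Fin n → Fin t, (univ : Finset (Fin n)).val = (lst f' : Multiset (Fin n)) := by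
      intro f'
      have e1 : (⟨(lst f' : Multiset (Fin n)), Multiset.coe_nodup.2 (nodup_lst f')⟩ :
          Finset (Fin n)) = univ := by
        ext i
        simp [mem_lst f' i]
      exact (congrArg Finset.val e1).symm
    have h7 : ((lst f).map f).Perm ((lst g).map g) := by
      rw [← Multiset.coe_eq_coe, ← Multiset.map_coe, ← Multiset.map_coe, ← hval f, ← hval g]
      exact h6
    have h8 : (lst f).map f = (lst g).map g :=
      h7.eq_of_pairwise (fun a b _ _ hab hba => le_antisymm hab hba) (sorted_lst f) (sorted_lst g)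
    rw [h5] at h8
    funext i
    exact List.map_inj_left.1 h8 i (mem_lst g i)

lemma pow_le_factorial (n : ℕ) : n ^ n ≤ 3 ^ n * n ! := by
  have h1 := Real.pow_div_factorial_le_exp (n : ℝ) (by positivity) n
  have h2 : Real.exp n ≤ 3 ^ n := by
    have h3 : Real.exp n = Real.exp 1 ^ n := by rw [← Real.exp_nat_mul, mul_one]
    rw [h3]
    exact pow_le_pow_left₀ (Real.exp_pos _).le (by linarith [Real.exp_one_lt_d9]) n
  have h3 : (0 : ℝ) < (n ! : ℝ) := by exact_mod_cast n.factorial_pos
  have h4 := h1.trans h2
  rw [div_le_iff₀ h3] at h4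
  exact_mod_cast h4

lemma le_choose (n m : ℕ) (hn : 1 ≤ n) : m ≤ (m + n).choose n := by
  obtain ⟨n, rfl⟩ : ∃ n', n = n' + 1 := ⟨n - 1, by omega⟩
  induction m with
  | zero => omega
  | succ m ih =>
    have h1 : m + 1 + (n + 1) = (m + (n + 1)) + 1 := by ring
    rw [h1, Nat.choose_succ_succ]
    have h2 : 0 < (m + (n + 1)).choose n := Nat.choose_pos (by omega)
    have h3 : m ≤ (m + (n + 1)).choose (n + 1) := ih
    have h4 : (m + (n + 1)).choose n.succ = (m + (n + 1)).choose (n + 1) := rfl
    omega

lemma ell_isLeast (n m : ℕ) (hn : 1 ≤ n) : IsLeast {l : ℕ | m ≤ l.choose n} (ell m n) := by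
  have hne : {l : ℕ | m ≤ l.choose n}.Nonempty := ⟨m + n, le_choose n m hn⟩
  exact ⟨Nat.sInf_mem hne, fun l hl => Nat.sInf_le hl⟩

/-- the key estimate: for `n t ≥ 12 l`, `t ≤ n`, the word contains at least `l.choose n`
permutations -/
lemma many (n t l m : ℕ) (hn : 1 ≤ n) (htn : t ≤ n) (htl : 12 * l ≤ t * n) (hm : m ≤ l.choose n) :
    m ≤ (contained n (word n t)).card := by
  have h1 := card_lower n t
  have h2 : t.multichoose n ≤ 4 ^ n := by
    rw [Nat.multichoose_eq]
    calc (t + n - 1).choose n ≤ 2 ^ (t + n - 1) := Nat.choose_le_two_pow _ _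
      _ ≤ 2 ^ (2 * n) := Nat.pow_le_pow_right (by norm_num) (by omega)
      _ = 4 ^ n := by rw [pow_mul]; norm_num
  have h3 : l.choose n * n ! ≤ l ^ n := by
    rw [mul_comm, ← Nat.descFactorial_eq_factorial_mul_choose]
    exact Nat.descFactorial_le_pow l n
  have h4 := pow_le_factorial n
  have h5 : m * n ^ n * 4 ^ n ≤ (12 * l) ^ n := by
    calc m * n ^ n * 4 ^ n ≤ l.choose n * (3 ^ n * n !) * 4 ^ n := by gcongr
      _ = (l.choose n * n !) * (3 * 4) ^ n := by rw [mul_pow]; ring
      _ ≤ l ^ n * (3 * 4) ^ n := Nat.mul_le_mul_right _ h3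
      _ = (12 * l) ^ n := by rw [← mul_pow]; congr 1; ring
  have h6 : (12 * l) ^ n ≤ t ^ n * n ^ n := by
    rw [← mul_pow]
    exact Nat.pow_le_pow_left htl n
  have h7 : t ^ n * n ^ n ≤ (contained n (word n t)).card * n ^ n * 4 ^ n := by
    calc t ^ n * n ^ n ≤ ((contained n (word n t)).card * 4 ^ n) * n ^ n :=
          Nat.mul_le_mul_right _ (h1.trans (Nat.mul_le_mul_left _ h2))
      _ = _ := by ring
  have h8 : m * (n ^ n * 4 ^ n) ≤ (contained n (word n t)).card * (n ^ n * 4 ^ n) := by
    calc m * (n ^ n * 4 ^ n) = m * n ^ n * 4 ^ n := by ring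
      _ ≤ _ := h5.trans (h6.trans h7)
      _ = _ := by ring
  exact Nat.le_of_mul_le_mul_right h8 (by positivity)

/-- the word `(1 2 … n)^n` contains all permutations -/
lemma all_perms (n : ℕ) : (contained n (word n n)).card = n ! := by
  classical
  have h1 : contained n (word n n) = univ := by
    rw [eq_univ_iff_forall]
    intro π
    unfold contained
    rw [mem_filter]
    refine ⟨mem_univ _, ?_⟩
    unfold word
    rw [List.ofFn_eq_map]
    have key : ∀ l' : List (Fin n), (l'.map π).Sublist
        (l'.flatMap fun _ => List.finRange n) := by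
      intro l'
      induction l' with
      | nil => simp
      | cons a l' ih =>
        rw [List.map_cons, List.flatMap_cons, ← List.singleton_append]
        refine List.Sublist.append ?_ ih
        rw [List.singleton_sublist]
        exact List.mem_finRange _
    exact key _
  rw [h1, card_univ, Fintype.card_perm, Fintype.card_fin]

/-- There is an absolute constant `C > 0` with `h(n, m) ≤ C ℓ(m, n)` for all `n ≥ 1` and all
`1 ≤ m ≤ n!` (and `C = 13` will do).  The minima in the definitions of `h` and `ℓ` are attained. -/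
theorem result : ∃ C : ℕ, 0 < C ∧ ∀ n m : ℕ, 1 ≤ n → 1 ≤ m → m ≤ n ! →
    IsLeast {L | ∃ w : List (Fin n), w.length = L ∧ m ≤ (contained n w).card} (h n m) ∧
    IsLeast {l : ℕ | m ≤ l.choose n} (ell m n) ∧ h n m ≤ C * ell m n := by
  refine ⟨13, by norm_num, fun n m hn hm hmn => ?_⟩
  have hne : {L | ∃ w : List (Fin n), w.length = L ∧ m ≤ (contained n w).card}.Nonempty :=
    ⟨_, word n n, rfl, by rw [all_perms]; exact hmn⟩
  have hl := ell_isLeast n m hn
  refine ⟨⟨Nat.sInf_mem hne, fun l hl => Nat.sInf_le hl⟩, hl, ?_⟩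
  have hl1 : m ≤ (ell m n).choose n := hl.1
  have hln : n ≤ ell m n := by
    by_contra hlt
    push Not at hlt
    rw [Nat.choose_eq_zero_of_lt hlt] at hl1
    omega
  -- the number `t = ⌈12 l / n⌉`
  obtain ⟨t, ht1, ht2⟩ : ∃ t, 12 * ell m n ≤ t * n ∧ t * n ≤ 12 * ell m n + n := by
    refine ⟨12 * ell m n / n + 1, ?_, ?_⟩
    · have := Nat.lt_div_mul_add (a := 12 * ell m n) (b := n) (by omega)
      rw [add_mul, one_mul]
      exact this.le
    · rw [add_mul, one_mul]
      have := Nat.div_mul_le_self (12 * ell m n) n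
      omega
  have hle : ∀ w : List (Fin n), m ≤ (contained n w).card → h n m ≤ w.length := fun w hw =>
    Nat.sInf_le ⟨w, rfl, hw⟩
  rcases le_or_gt t n with htn | htn
  · refine (hle (word n t) (many n t (ell m n) m hn htn ht1 hl1)).trans ?_
    rw [length_word]
    omega
  · refine (hle (word n n) (by rw [all_perms]; exact hmn)).trans ?_
    rw [length_word]
    have : n * n ≤ t * n := Nat.mul_le_mul_right _ htn.le
    omega

end Pool.Agent.Results.MP_6c7e5c_co.ManyPermutations
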